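import Pool.Agent.Helper98.Volt.OrbitDefs
import Pool.Agent.Helper98.Volt.LocalC
import Pool.Agent.Helper98.Volt.PowerOrbit
import Pool.Agent.Helper56.Volt.PTUniq

/-!
# Automorphism orbits in the Volterra algebra `L¹[0,1]`

All pairs `(f, g)` with `T f = g` for an automorphism `T` of `L¹[0,1]` (truncated convolution).

* The automorphisms are exactly the maps `f ↦ ∑ (-1)^j/j! · (dN)^{*j} * (t^j f)` where `N` is of
  locally bounded variation on `[0,1)` with `Var(N; [0,1-x]) ≤ C/x`.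
* If `α(f) = 0`, then `T` and `N` (a.e.) are determined by `T f`; more precisely, `g` on `[0,b]` and
  `N` on `[0,b]` determine each other, for every `b`.
* Closed forms: for `Re a > 0` and `f` of power type `(a,c)`, i.e.
  `f = c (t^(a-1) + ∫₀ᵗ (t-s)^(a-1) S(s) ds)` with `S` in the class, the orbit of `f` is the set of
  all functions of power type `(a,c)`; functions of power types `(a,c)` and `(b,d)`, `c, d ≠ 0`, lie
  in one orbit iff `(a,c) = (b,d)`. Functions which are smooth on `[0,1]` and not flat at `0` are of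
  power type. In particular the orbit of `u = 1` is the set of all `1 + ∫₀ᵗ R` with `R` in the class.
-/

namespace Pool.Agent.Results.MP_c24bc3_an.OrbitPairs

open MeasureTheory Set Filter Topology

lemma isProd_iff (f g h : L1) : IsProd f g h ↔ h = (f * g : Volt.L1) :=
  Volt.L1.isConv_iff f g h

lemma isAut_iff (T : L1 →ₗ[ℂ] L1) : IsAut T ↔ Function.Bijective T ∧
    ∀ f g : Volt.L1, T (f * g : Volt.L1) = (T f * T g : Volt.L1) := by
  unfold IsAut
  simp only [isProd_iff]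
  constructor
  · rintro ⟨h1, h2⟩
    exact ⟨h1, fun f g => h2 f g _ rfl⟩
  · rintro ⟨h1, h2⟩
    refine ⟨h1, ?_⟩
    rintro f g h rfl
    exact h2 f g

lemma alphaZero_iff (f : L1) : AlphaZero f ↔ ∀ ε : ℝ, 0 < ε → Volt.L1.P ε f ≠ 0 := by
  have key : ∀ δ : ℝ, δ ≤ 1 → ((∀ᵐ t ∂(volume.restrict (Icc (0:ℝ) 1)), t ≤ δ → f t = 0) ↔
      ∀ᵐ t ∂(volume.restrict (Icc (0:ℝ) δ)), f t = 0) := by
    intro δ hδ
    rw [ae_restrict_iff' measurableSet_Icc, ae_restrict_iff' measurableSet_Icc]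
    constructor
    · intro h
      filter_upwards [h] with t h1 h2
      exact h1 ⟨h2.1, h2.2.trans hδ⟩ h2.2
    · intro h
      filter_upwards [h] with t h1 h2 h3
      exact h1 ⟨h2.1, h3⟩
  constructor
  · intro h ε hε h0
    have h1 : Volt.L1.P (min ε 1) f = 0 := by
      have := congrArg (Volt.L1.P (min ε 1)) h0
      rwa [Volt.L1.P_P, map_zero, min_eq_left (min_le_left _ _)] at this
    have h2 := (not_congr (Volt.L1.ne_zero_iff (f := f) (min_le_right ε 1))).1 (not_not.2 h1)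
    exact h _ (lt_min hε one_pos) ((key _ (min_le_right _ _)).2 (not_not.1 h2))
  · intro h δ hδ h0
    have h1 : ∀ᵐ t ∂(volume.restrict (Icc (0:ℝ) 1)), t ≤ min δ 1 → f t = 0 := by
      filter_upwards [h0] with t ht h2
      exact ht (h2.trans (min_le_left _ _))
    exact (Volt.L1.ne_zero_iff (f := f) (min_le_right δ 1)).1 (h _ (lt_min hδ one_pos))
      ((key _ (min_le_right _ _)).1 h1)

lemma powerType_iff {a c : ℂ} (ha : 0 < a.re) (f : L1) :
    PowerType a c f ↔ Volt.L1.vd.PF (c • Volt.L1.vp a) f := by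
  constructor
  · intro h
    by_cases hc : c = 0
    · subst hc
      obtain ⟨S, hS, h2⟩ := h
      have h0 : f = (0:ℂ) • Volt.L1.vp a := by
        rw [zero_smul]
        apply Lp.ext
        filter_upwards [h2, Lp.coeFn_zero ℂ 1 Volt.mu0] with t h3 h4
        rw [h3, h4, zero_mul]; rfl
      rw [h0]
      apply Volt.VD.PF_smul
      refine ⟨fun _ => 0, 0, ⟨le_rfl, fun n => map_zero _, fun n => ?_⟩, fun n => ?_⟩
      · unfold Volt.VD.Lip
        refine Eventually.of_forall fun h => ?_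
        simp
      · simp
    · obtain ⟨S, hS, h2⟩ := h
      have h3 : Volt.L1.vd.PF (Volt.L1.vp a) (c⁻¹ • f) := by
        refine (Volt.L1.fam_vp_iff ha _).2 ⟨S, hS, ?_⟩
        filter_upwards [h2, Lp.coeFn_smul c⁻¹ f] with t h4 h5
        rw [h5, Pi.smul_apply, smul_eq_mul, h4, ← mul_assoc, inv_mul_cancel₀ hc, one_mul]
      have h4 := Volt.VD.PF_smul (c := c) h3
      rwa [smul_smul, mul_inv_cancel₀ hc, one_smul] at h4
  · intro h
    obtain ⟨g, hg, rfl⟩ := Volt.VD.PF_of_smul h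
    obtain ⟨S, hS, h2⟩ := (Volt.L1.fam_vp_iff ha _).1 hg
    refine ⟨S, hS, ?_⟩
    filter_upwards [h2, Lp.coeFn_smul c g] with t h4 h5
    rw [h5, Pi.smul_apply, smul_eq_mul, h4]

/-- the orbit of a function of power type -/
lemma power_orbit {a c : ℂ} (ha : 0 < a.re) {f : L1} (hf : PowerType a c f) (g : L1) :
    (∃ T, IsAut T ∧ T f = g) ↔ PowerType a c g := by
  have ha0 : a ≠ 0 := by rintro rfl; simp at ha
  have h := Volt.VD.power_orbit (V := Volt.L1.vd) Volt.L1.span_dense ha0 (Volt.L1.X_vp ha)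
    ((powerType_iff ha f).1 hf) g
  rw [powerType_iff ha g, ← h]
  simp only [isAut_iff]
  constructor
  · rintro ⟨T, ⟨h1, h2⟩, h3⟩
    exact ⟨T, h1, h2, h3⟩
  · rintro ⟨T, h1, h2, h3⟩
    exact ⟨T, ⟨h1, h2⟩, h3⟩

/-- smooth functions which are not flat at `0` are of power type -/
lemma powerType_of_smooth {k : ℕ} {c : ℂ} {F : ℝ → ℂ} (hc : c ≠ 0)
    (hF : ContDiffOn ℝ (k + 2 : ℕ) F (Icc 0 1))
    (h0 : ∀ j < k, iteratedDerivWithin j F (Icc 0 1) 0 = 0)
    (hk : iteratedDerivWithin k F (Icc 0 1) 0 = c * (Nat.factorial k : ℂ)) {f : L1}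
    (hf : ∀ᵐ t ∂(volume.restrict (Icc (0:ℝ) 1)), f t = F t) : PowerType (k + 1) c f := by
  obtain ⟨S, hS, h⟩ := Volt.L1.pt_of_smooth hc hF h0 hk
  refine ⟨S, hS, ?_⟩
  filter_upwards [hf, ae_restrict_mem measurableSet_Icc] with t ht ht1
  rw [ht, h t ht1]
  simp only [add_sub_cancel_right, Complex.cpow_natCast]

theorem result :
    -- truncated products exist and are unique
    (∀ f g : L1, ∃! h : L1, IsProd f g h) ∧
    -- every `N` of the class gives an automorphism, and every automorphism arises so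
    (∀ N : ℝ → ℂ, GrowthBV N → ∃ T, IsAut T ∧ ∀ f g : L1, T f = g ↔ Expands N f g) ∧
    (∀ T, IsAut T → ∃ N : ℝ → ℂ, GrowthBV N ∧ ∀ f g : L1, T f = g ↔ Expands N f g) ∧
    -- all pairs
    (∀ f g : L1, (∃ T, IsAut T ∧ T f = g) ↔ ∃ N : ℝ → ℂ, GrowthBV N ∧ Expands N f g) ∧
    -- `α(f) = 0`: the condition is preserved, `T` is determined by `T f`, and `N` on `[0,b]` and
    -- `g` on `[0,b]` determine each other
    (∀ f : L1, AlphaZero f →
      (∀ T, IsAut T → AlphaZero (T f)) ∧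
      (∀ T T', IsAut T → IsAut T' → T f = T' f → T = T') ∧
      (∀ (N N' : ℝ → ℂ) (g g' : L1), GrowthBV N → GrowthBV N' → Expands N f g → Expands N' f g' →
        ∀ b ∈ Icc (0:ℝ) 1, ((∀ᵐ t ∂(volume.restrict (Icc (0:ℝ) b)), g t = g' t) ↔
          ∀ᵐ t ∂(volume.restrict (Icc (0:ℝ) b)), N t = N' t))) ∧
    -- orbits of the functions of power type
    (∀ a c : ℂ, 0 < a.re → ∀ f g : L1, PowerType a c f →
      ((∃ T, IsAut T ∧ T f = g) ↔ PowerType a c g)) ∧
    (∀ a b c d : ℂ, 0 < a.re → 0 < b.re → c ≠ 0 → d ≠ 0 → ∀ f g : L1, PowerType a c f →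
      PowerType b d g → ((∃ T, IsAut T ∧ T f = g) ↔ a = b ∧ c = d)) ∧
    -- every `C^(k+2)` function with leading Taylor term `c t^k`, `c ≠ 0`, at `0` is of power type
    (∀ (k : ℕ) (c : ℂ) (F : ℝ → ℂ) (f : L1), c ≠ 0 → ContDiffOn ℝ (k + 2 : ℕ) F (Icc 0 1) →
      (∀ j < k, iteratedDerivWithin j F (Icc 0 1) 0 = 0) →
      iteratedDerivWithin k F (Icc 0 1) 0 = c * (Nat.factorial k : ℂ) →
      (∀ᵐ t ∂(volume.restrict (Icc (0:ℝ) 1)), f t = F t) → PowerType (k + 1) c f) ∧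
    -- the orbit of `u`
    (∀ u g : L1, (∀ᵐ t ∂(volume.restrict (Icc (0:ℝ) 1)), u t = 1) →
      ((∃ T, IsAut T ∧ T u = g) ↔ ∃ R : ℝ → ℂ, GrowthBV R ∧
        ∀ᵐ t ∂(volume.restrict (Icc (0:ℝ) 1)), g t = 1 + ∫ s in (0:ℝ)..t, R s)) := by
  have hNT : ∀ N : ℝ → ℂ, GrowthBV N → ∃ T, IsAut T ∧ ∀ f g : L1, T f = g ↔ Expands N f g := by
    intro N hN
    obtain ⟨C, K, T, hC, hloc, hb, hm, hT, hE⟩ := Volt.L1.bv_data hN
    exact ⟨(T : L1 →ₗ[ℂ] L1), (isAut_iff _).2 ⟨hb, hm⟩, fun f g => (hE f g).symm⟩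
  have hTN : ∀ T, IsAut T → ∃ N : ℝ → ℂ, GrowthBV N ∧ ∀ f g : L1, T f = g ↔ Expands N f g := by
    intro T hT
    obtain ⟨h1, h2⟩ := (isAut_iff T).1 hT
    obtain ⟨N, hN, hE⟩ := Volt.L1.aut_to_series T h1 h2
    refine ⟨N, hN, fun f g => ?_⟩
    obtain ⟨C, K, T', hC, hloc, hb, hm, hT', hE'⟩ := Volt.L1.bv_data hN
    have e : ∀ f, T' f = T f := fun f => (hE' f (T f)).1 (hE f)
    rw [← e]
    exact (hE' f g).symm
  refine ⟨?_, hNT, hTN, ?_, ?_, fun a c ha f g hf => power_orbit ha hf g, ?_,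
    fun k c F f hc hF h0 hk hf => powerType_of_smooth hc hF h0 hk hf, ?_⟩
  · intro f g
    refine ⟨(f * g : Volt.L1), (isProd_iff _ _ _).2 rfl, fun h hh => (isProd_iff _ _ _).1 hh⟩
  · intro f g
    constructor
    · rintro ⟨T, hT, h3⟩
      obtain ⟨N, hN, hE⟩ := hTN T hT
      exact ⟨N, hN, (hE f g).1 h3⟩
    · rintro ⟨N, hN, hE⟩
      obtain ⟨T, hT, h3⟩ := hNT N hN
      exact ⟨T, hT, (h3 f g).2 hE⟩
  · intro f hf
    have hf' := (alphaZero_iff f).1 hf
    refine ⟨fun T hT => ?_, fun T T' hT hT' h => ?_, fun N N' g g' hN hN' h h' b hb => ?_⟩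
    · obtain ⟨h1, h2⟩ := (isAut_iff T).1 hT
      exact (alphaZero_iff _).2 fun ε hε => Volt.L1.T_alpha h1 h2 hf' hε
    · obtain ⟨h1, h2⟩ := (isAut_iff T).1 hT
      obtain ⟨h1', h2'⟩ := (isAut_iff T').1 hT'
      exact Volt.L1.T_unique h1 h2 h1' h2' hf' h
    · exact Volt.L1.N_local hN hN' hf' h h' hb.2
  · intro a b c d ha hb hc hd f g hf hg
    rw [power_orbit ha hf g]
    constructor
    · intro h
      exact Volt.L1.pt_unique ha hb hc hd h hg
    · rintro ⟨rfl, rfl⟩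
      exact hg
  · intro u g hu
    have hu' : PowerType 1 1 u := by
      refine ⟨fun _ => 0, ⟨0, fun x _ => ?_⟩, ?_⟩
      · rw [eVariationOn.constant_on]
        · exact zero_le
        · rintro _ ⟨_, _, rfl⟩ _ ⟨_, _, rfl⟩
          rfl
      · filter_upwards [hu] with t ht
        rw [ht]; simp
    rw [power_orbit (by simp) hu' g]
    constructor
    · rintro ⟨S, hS, h⟩
      refine ⟨S, hS, ?_⟩
      filter_upwards [h] with t ht
      rw [ht]; simp
    · rintro ⟨S, hS, h⟩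
      refine ⟨S, hS, ?_⟩
      filter_upwards [h] with t ht
      rw [ht]; simp

end Pool.Agent.Results.MP_c24bc3_an.OrbitPairs
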